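import Pool.Agent.helper98.CSM2.Asm

/-!
# Transcendental entire functions with finitely many singular values have no invariant line fields

`HasInvariantLineField` is defined in `Pool/Agent/helper98/ILF/Defs.lean`.
-/

set_option autoImplicit false

open Filter Topology
open Pool.Agent.helper98.ILF

namespace Pool.Agent.Results.MP_70a088_an.ClassS

/-- The critical values of `f`. -/
def criticalValues (f : ℂ → ℂ) : Set ℂ := {w | ∃ z, deriv f z = 0 ∧ f z = w}

/-- The (finite) asymptotic values of `f`: the limits of `f` along curves which tend to infinity. -/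
def asymptoticValues (f : ℂ → ℂ) : Set ℂ :=
  {a | ∃ γ : ℝ → ℂ, ContinuousOn γ (Set.Ici 0) ∧ Tendsto (fun t => ‖γ t‖) atTop atTop ∧
    Tendsto (fun t => f (γ t)) atTop (𝓝 a)}

/-- A transcendental entire function with finitely many singular values (critical values and
asymptotic values) has no invariant line field on its Julia set. -/
theorem result (f : ℂ → ℂ) (hf : Differentiable ℂ f)
    (htr : ∀ p : Polynomial ℂ, ∃ z, f z ≠ p.eval z)
    (hfin : (criticalValues f ∪ asymptoticValues f).Finite) :
    ¬ HasInvariantLineField f :=
  CSM2.CSZ ⟨f, hf, htr, hfin⟩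

end Pool.Agent.Results.MP_70a088_an.ClassS
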