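import Pool.Agent.helper98.CSM2.Asm
import Pool.Agent.helper98.P2F.Asm
import Pool.Agent.helper98.RAT.Asm

/-!
# The no invariant line fields conjecture

All definitions which the statement uses are in this file. Maps of the plane (polynomials, entire
functions) are functions `ℂ → ℂ`; rational maps are maps of the Riemann sphere `OnePoint ℂ`.
-/

set_option autoImplicit false

open Filter Topology MeasureTheory

noncomputable section

namespace Pool.Agent.Results.MP_70a088_an.NoInvariantLineFields

/-! ## Maps of the plane -/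

/-- The chordal distance (half of the usual one) of two points of the plane. -/
def chordal (a b : ℂ) : ℝ := ‖a - b‖ / (Real.sqrt (1 + ‖a‖ ^ 2) * Real.sqrt (1 + ‖b‖ ^ 2))

/-- The iterates of `f` are equicontinuous at `z` for the chordal distance. -/
def EquicontAt (f : ℂ → ℂ) (z : ℂ) : Prop :=
  ∀ ε > 0, ∃ δ > 0, ∀ w : ℂ, ‖w - z‖ < δ → ∀ k : ℕ, chordal (f^[k] w) (f^[k] z) < ε

/-- The Fatou set of `f`: the largest open set on which the iterates of `f` are equicontinuous
(equivalently, by Arzela-Ascoli, normal) for the chordal distance. -/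
def fatouSet (f : ℂ → ℂ) : Set ℂ := interior {z | EquicontAt f z}

/-- The Julia set of `f`. -/
def juliaSet (f : ℂ → ℂ) : Set ℂ := (fatouSet f)ᶜ

/-- `μ` is an invariant line field of `f`, supported on the Julia set: `|μ| = 1` on a set of positive
area contained in the Julia set, `μ = 0` off this set, and `f^* μ = μ` almost everywhere, where
`(f^* μ)(z) = μ(f(z)) conj(f'(z)) / f'(z)`. -/
def IsInvariantLineField (f : ℂ → ℂ) (μ : ℂ → ℂ) : Prop :=
  Measurable μ ∧ (∀ z, μ z ≠ 0 → ‖μ z‖ = 1) ∧ 0 < volume {z | μ z ≠ 0} ∧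
    {z | μ z ≠ 0} ⊆ juliaSet f ∧
    ∀ᵐ z : ℂ, μ (f z) * (starRingEnd ℂ) (deriv f z) / deriv f z = μ z

/-- `f` has an invariant line field supported on its Julia set. -/
def HasInvariantLineField (f : ℂ → ℂ) : Prop := ∃ μ : ℂ → ℂ, IsInvariantLineField f μ

/-- The critical values of `f`. -/
def criticalValues (f : ℂ → ℂ) : Set ℂ := {w | ∃ z, deriv f z = 0 ∧ f z = w}

/-- The (finite) asymptotic values of `f`: the limits of `f` along curves which tend to infinity. -/
def asymptoticValues (f : ℂ → ℂ) : Set ℂ :=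
  {a | ∃ γ : ℝ → ℂ, ContinuousOn γ (Set.Ici 0) ∧ Tendsto (fun t => ‖γ t‖) atTop atTop ∧
    Tendsto (fun t => f (γ t)) atTop (𝓝 a)}

/-! ## Rational maps of the Riemann sphere -/

/-- The Riemann sphere. -/
abbrev Sphere : Type := OnePoint ℂ

/-- The chordal distance (half of the usual one) on the Riemann sphere. -/
def chordalS : Sphere → Sphere → ℝ
  | OnePoint.some z, OnePoint.some w => ‖z - w‖ / (Real.sqrt (1 + ‖z‖ ^ 2) * Real.sqrt (1 + ‖w‖ ^ 2))
  | OnePoint.some z, OnePoint.infty => 1 / Real.sqrt (1 + ‖z‖ ^ 2)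
  | OnePoint.infty, OnePoint.some w => 1 / Real.sqrt (1 + ‖w‖ ^ 2)
  | OnePoint.infty, OnePoint.infty => 0

/-- The degree of the rational map `A / B` (`A`, `B` coprime). -/
def ratDegree (A B : Polynomial ℂ) : ℕ := max A.natDegree B.natDegree

open Classical in
/-- The rational map `A / B` of the Riemann sphere (`A`, `B` coprime). -/
def ratMap (A B : Polynomial ℂ) : Sphere → Sphere
  | OnePoint.some z => if B.eval z = 0 then OnePoint.infty else ((A.eval z / B.eval z : ℂ) : Sphere)
  | OnePoint.infty => if B.coeff (ratDegree A B) = 0 then OnePoint.infty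
      else ((A.coeff (ratDegree A B) / B.coeff (ratDegree A B) : ℂ) : Sphere)

/-- The iterates of `F` are equicontinuous at `x` for the chordal distance. -/
def EquicontAtS (F : Sphere → Sphere) (x : Sphere) : Prop :=
  ∀ ε > (0 : ℝ), ∃ δ > (0 : ℝ), ∀ y, chordalS y x < δ → ∀ k : ℕ, chordalS (F^[k] y) (F^[k] x) < ε

/-- The Fatou set of `F`: the points near which the iterates are equicontinuous. -/
def fatouSetS (F : Sphere → Sphere) : Set Sphere :=
  {x | ∃ r > (0 : ℝ), ∀ y, chordalS y x < r → EquicontAtS F y}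

/-- The Julia set of `F`. -/
def juliaSetS (F : Sphere → Sphere) : Set Sphere := (fatouSetS F)ᶜ

/-- The rational map `f = A / B` has an invariant line field supported on its Julia set: there is
`μ` with `|μ| = 1` on a set of positive area whose points are in the Julia set, `μ = 0` off this set,
and `f^* μ = μ` almost everywhere. (The point `∞` and the poles of `f` have area zero.) -/
def RatHasInvariantLineField (A B : Polynomial ℂ) : Prop :=
  ∃ μ : ℂ → ℂ, Measurable μ ∧ (∀ z, μ z ≠ 0 → ‖μ z‖ = 1) ∧ 0 < volume {z | μ z ≠ 0} ∧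
    (∀ z : ℂ, μ z ≠ 0 → (z : Sphere) ∈ juliaSetS (ratMap A B)) ∧
    ∀ᵐ z : ℂ, μ (A.eval z / B.eval z) * (starRingEnd ℂ) (deriv (fun w => A.eval w / B.eval w) z) /
      deriv (fun w => A.eval w / B.eval w) z = μ z

open Classical in
/-- The map `p` from the plane to the Riemann sphere is holomorphic at `z`: near `z` it is a quotient
`P / Q` of holomorphic functions which are not both `0` at `z`. -/
def HolomorphicAt (p : ℂ → Sphere) (z : ℂ) : Prop :=
  ∃ P Q : ℂ → ℂ, AnalyticAt ℂ P z ∧ AnalyticAt ℂ Q z ∧ (P z ≠ 0 ∨ Q z ≠ 0) ∧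
    ∀ᶠ w in 𝓝 z, p w = if Q w = 0 then OnePoint.infty else ((P w / Q w : ℂ) : Sphere)

/-- `F` is double covered by an integral torus endomorphism: there are a lattice `Λ = ℤ w₁ + ℤ w₂`, a
holomorphic surjective map `p : ℂ → Sphere` with `p z = p w` if and only if `w ∈ z + Λ` or
`w ∈ -z + Λ` (that is a degree two branched covering `ℂ / Λ → Sphere` which identifies `z` with
`-z`), and `A(z) = n z + b` with an integer `n`, `|n| ≥ 2`, such that `F ∘ p = p ∘ A`. -/
def IsDoubleCovered (F : Sphere → Sphere) : Prop :=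
  ∃ (w₁ w₂ b : ℂ) (n : ℤ) (p : ℂ → Sphere), LinearIndependent ℝ ![w₁, w₂] ∧ 2 ≤ |n| ∧
    (∀ z, HolomorphicAt p z) ∧ Function.Surjective p ∧
    (∀ z w : ℂ, p z = p w ↔ ∃ i j : ℤ, w = z + i * w₁ + j * w₂ ∨ w = -z + i * w₁ + j * w₂) ∧
    ∀ z, F (p z) = p (n * z + b)

/-! ## Comparison with the definitions used in the proof -/

theorem chordalS_eq : chordalS = JX.ch := by
  funext x y
  cases x <;> cases y <;> rfl

theorem ratMap_eq (d : ℕ) (A B : Polynomial ℂ) (h : JX.RP d A B) : ratMap A B = JX.sph d A B := by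
  have hd : ratDegree A B = d := h.deg
  subst hd
  funext x
  cases x <;> rfl

theorem juliaSetS_eq (F : Sphere → Sphere) : juliaSetS F = JX.Jul F := by
  unfold juliaSetS fatouSetS EquicontAtS JX.Jul JX.Fat JX.EqC
  rw [chordalS_eq]

theorem rat_of (d : ℕ) (A B : Polynomial ℂ) (hRP : JX.RP d A B) (h : RatHasInvariantLineField A B) : ∃ μ, JX.ILF d A B μ := by
  obtain ⟨μ, h1, h2, h3, h4, h5⟩ := h
  refine ⟨μ, h1, fun z => ?_, fun z hz => ?_, h3, h5⟩
  · by_cases hz : μ z = 0
    · exact Or.inl hz
    · exact Or.inr (h2 z hz)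
  · rw [← juliaSetS_eq, ← ratMap_eq d A B hRP]
    exact h4 z hz

theorem dc_of (d : ℕ) (A B : Polynomial ℂ) (hRP : JX.RP d A B) (h : LAT.DC d A B) : IsDoubleCovered (ratMap A B) := by
  rw [ratMap_eq d A B hRP]
  exact h

/-- THE NO INVARIANT LINE FIELDS THEOREM. A polynomial of degree at least two, a transcendental
entire function with finitely many singular values (critical and asymptotic values), a rational map
of degree at least two which is not double covered by an integral torus endomorphism: none of them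
has an invariant line field supported on its Julia set. -/
theorem result :
    (∀ f : Polynomial ℂ, 2 ≤ f.natDegree → ¬ HasInvariantLineField (fun z : ℂ => f.eval z)) ∧
    (∀ f : ℂ → ℂ, Differentiable ℂ f → (∀ p : Polynomial ℂ, ∃ z, f z ≠ p.eval z) →
      (criticalValues f ∪ asymptoticValues f).Finite → ¬ HasInvariantLineField f) ∧
    (∀ A B : Polynomial ℂ, IsCoprime A B → 2 ≤ ratDegree A B →
      ¬ IsDoubleCovered (ratMap A B) → ¬ RatHasInvariantLineField A B) := by
  refine ⟨fun f hf => P2FZ.NILFZ f hf, fun f hf htr hfin => CSM2.CSZ ⟨f, hf, htr, hfin⟩, fun A B hc hd hD h => ?_⟩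
  have hRP : JX.RP (ratDegree A B) A B := ⟨hc, rfl⟩
  obtain ⟨μ, hμ⟩ := rat_of _ A B hRP h
  exact hD (dc_of _ A B hRP (RATZ.RATF _ A B μ hd hRP hμ))

end Pool.Agent.Results.MP_70a088_an.NoInvariantLineFields
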