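import Pool.Agent.helper98.P2F.Asm

/-!
# Polynomials have no invariant line fields

`HasInvariantLineField` is defined in `Pool/Agent/helper98/ILF/Defs.lean`.
-/

set_option autoImplicit false

open Pool.Agent.helper98.ILF

namespace Pool.Agent.Results.MP_70a088_an.Polynomials

/-- A complex polynomial of degree at least two has no invariant line field on its Julia set. -/
theorem result (f : Polynomial ℂ) (hf : 2 ≤ f.natDegree) :
    ¬ HasInvariantLineField (fun z : ℂ => f.eval z) :=
  P2FZ.NILFZ f hf

end Pool.Agent.Results.MP_70a088_an.Polynomials
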