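import Pool.Agent.helper60.JR.Fin
import Pool.Agent.helper88.RTI.Fin

/-!
# Stable rational maps are dense, hyperbolic and have no invariant line fields

The definitions used in the statement are in `Pool/Agent/helper60/JR/XDefs.lean`.
-/

set_option autoImplicit false

namespace Pool.Agent.Results.MP_70a088_an.StableRationalMaps

open JX

/-- Let `f = A / B` be a rational map of degree `d ≥ 2` of the Riemann sphere. If `f` is stable (no
rational map of degree `d` near `f` has a neutral cycle) then `f` is hyperbolic (every critical
point is attracted by an attracting cycle), its Julia set has area zero, and it has no invariant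
line field on its Julia set. Moreover `f` is a limit of stable rational maps of degree `d`. -/
theorem result (d : ℕ) (hd : 2 ≤ d) (A B : Polynomial ℂ) (h : RP d A B) :
    (Stb d A B → Hyp (sph d A B) ∧ JZ (sph d A B) ∧ ¬ ∃ μ, ILF d A B μ) ∧
      ∀ ε > (0 : ℝ), ∃ A' B' : Polynomial ℂ, RP d A' B' ∧ Nr A B A' B' ε ∧ Stb d A' B' :=
  JRAT RTIA.R0_closed d hd A B h

end Pool.Agent.Results.MP_70a088_an.StableRationalMaps
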